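import Pool.Agent.W2helper61.PF.Stm

/-!
Project PF, piece CRT: certificates for `Σ^b_1` formulas.
-/

set_option autoImplicit false

namespace Pool.Agent.W2helper60.PF

open Pool.Agent.NPC Pool.Agent.H620R2.Gauge Pool.Agent.W2helper61.RF Pool.Agent.W2helper61.PF

/-- certificates for the truth value `b` -/
def Cq (b : Bool) (φ : Fm) (q : Polynomial ℕ) : Prop := ∀ (N : ℕ) (O : Oracle) (v : ℕ → ℕ),
  (∀ i, (v i).size ≤ N) → (φ.sat (nat O) v ↔ b = true) →
  ∃ Q : Finset (List Bool), Q.card ≤ q.eval N ∧ (∀ u ∈ Q, u.length ≤ q.eval N) ∧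
    ∀ O' : Oracle, (∀ u ∈ Q, O' u = O u) → (φ.sat (nat O') v ↔ b = true)

theorem size_cons {v : ℕ → ℕ} {N a r : ℕ} (hv : ∀ i, (v i).size ≤ N) (ha : a.size ≤ r) (i : ℕ) :
    (cons a v i).size ≤ N + r := by
  rcases i with _ | i
  · show a.size ≤ _
    omega
  · have := hv i
    show (v i).size ≤ _
    omega

theorem sat_ball (O : Oracle) (t : Tm) (φ : Fm) (v : ℕ → ℕ) :
    (Fm.ball t φ).sat (nat O) v ↔ ∀ a, a ≤ t.val (nat O) v → φ.sat (nat O) (cons a v) := by
  simp only [Fm.sat, Tm.val_shift]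
  exact Iff.rfl

theorem cq_ball {φ : Fm} {q : Polynomial ℕ} (hq : Cq false φ q) (t : Tm) :
    ∃ q' : Polynomial ℕ, Cq false (.ball t φ) q' := by
  obtain ⟨r, hr⟩ := tm_size t
  refine ⟨q.comp (Polynomial.X + r), fun N O v hv h => ?_⟩
  rw [Polynomial.eval_comp, Polynomial.eval_add, Polynomial.eval_X]
  rw [sat_ball] at h
  simp only [Bool.false_eq_true, iff_false, not_forall] at h
  obtain ⟨a, ha, h'⟩ := h
  have has : a.size ≤ r.eval N := (Nat.size_le_size ha).trans (hr O v N hv)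
  obtain ⟨Q, h1, h2, h3⟩ := hq (N + r.eval N) O (cons a v) (size_cons hv has)
    (by simpa using h')
  refine ⟨Q, h1, h2, fun O' hO' => ?_⟩
  have h4 := h3 O' hO'
  simp only [Bool.false_eq_true, iff_false] at h4
  simp only [Bool.false_eq_true, iff_false]
  rw [sat_ball]
  intro h5
  refine h4 (h5 a ?_)
  rw [val_nat O' O v t]
  exact ha

theorem cq_sball {φ : Fm} {q : Polynomial ℕ} (hq : Cq true φ q) (t : Tm) :
    ∃ q' : Polynomial ℕ, Cq true (.ball (.len t) φ) q' := by
  obtain ⟨r, hr⟩ := tm_size t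
  refine ⟨(r + 1) * q.comp (Polynomial.X + r), fun N O v hv h => ?_⟩
  rw [Polynomial.eval_mul, Polynomial.eval_comp, Polynomial.eval_add, Polynomial.eval_add,
    Polynomial.eval_X, Polynomial.eval_one]
  rw [sat_ball] at h
  simp only [iff_true] at h
  obtain ⟨T, hT⟩ : ∃ T : ℕ, T = (t.val (nat O) v).size := ⟨_, rfl⟩
  have hTr : T ≤ r.eval N := by rw [hT]; exact hr O v N hv
  have hlen : ∀ O' : Oracle, (Tm.len t).val (nat O') v = T := by
    intro O'
    rw [hT, val_nat O' O v (.len t)]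
    rfl
  rw [hlen O] at h
  have hex : ∀ a : ℕ, ∃ Q : Finset (List Bool), a ≤ T →
      Q.card ≤ q.eval (N + r.eval N) ∧ (∀ u ∈ Q, u.length ≤ q.eval (N + r.eval N)) ∧
      ∀ O' : Oracle, (∀ u ∈ Q, O' u = O u) → φ.sat (nat O') (cons a v) := by
    intro a
    by_cases ha : a ≤ T
    · obtain ⟨Q, h1, h2, h3⟩ := hq (N + r.eval N) O (cons a v)
        (size_cons hv ((size_le_self a).trans (ha.trans hTr))) (by simpa using h a ha)
      exact ⟨Q, fun _ => ⟨h1, h2, fun O' hO' => (h3 O' hO').2 rfl⟩⟩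
    · exact ⟨∅, fun h' => absurd h' ha⟩
  choose Q hQ using hex
  refine ⟨(Finset.range (T + 1)).biUnion Q, ?_, ?_, fun O' hO' => ?_⟩
  · refine Finset.card_biUnion_le.trans ((Finset.sum_le_card_nsmul _ _ (q.eval (N + r.eval N))
      fun a ha => (hQ a (by rw [Finset.mem_range] at ha; omega)).1).trans ?_)
    rw [Finset.card_range, smul_eq_mul]
    exact Nat.mul_le_mul_right _ (by omega)
  · intro u hu
    rw [Finset.mem_biUnion] at hu
    obtain ⟨a, ha, hu⟩ := hu
    refine ((hQ a (by rw [Finset.mem_range] at ha; omega)).2.1 u hu).trans ?_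
    exact Nat.le_mul_of_pos_left _ (by omega)
  · simp only [iff_true]
    rw [sat_ball, hlen O']
    intro a ha
    exact (hQ a ha).2.2 O' fun u hu => hO' u
      (Finset.mem_biUnion.2 ⟨a, Finset.mem_range.2 (by omega), hu⟩)

theorem cq_all {b : Bool} {φ : Fm} (h : SB b φ) : ∃ q : Polynomial ℕ, Cq b φ q := by
  induction h with
  | eq b t u =>
    refine ⟨0, fun N O v _ h => ⟨∅, by simp, by simp, fun O' _ => ?_⟩⟩
    simp only [Fm.sat] at h ⊢
    rw [val_nat O' O v t, val_nat O' O v u]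
    exact h
  | le b t u =>
    refine ⟨0, fun N O v _ h => ⟨∅, by simp, by simp, fun O' _ => ?_⟩⟩
    simp only [Fm.sat] at h ⊢
    rw [val_nat O' O v t, val_nat O' O v u]
    exact h
  | orc b t =>
    obtain ⟨q, hq⟩ := tm_size t
    refine ⟨q + 1, fun N O v hv h => ⟨{str (t.val (nat O) v)}, ?_, ?_, fun O' hO' => ?_⟩⟩
    · rw [Finset.card_singleton, Polynomial.eval_add, Polynomial.eval_one]
      omega
    · intro u hu
      rw [Finset.mem_singleton] at hu
      rw [hu, Polynomial.eval_add]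
      exact ((length_str_le _).trans (hq O v N hv)).trans (Nat.le_add_right _ _)
    · have h1 := hO' _ (Finset.mem_singleton_self _)
      have h2 : (Fm.orc t).sat (nat O') v ↔ (Fm.orc t).sat (nat O) v := by
        show O' (str (t.val (nat O') v)) = true ↔ O (str (t.val (nat O) v)) = true
        rw [val_nat O' O v t, h1]
      exact h2.trans h
  | bot b => exact ⟨0, fun N O v _ h => ⟨∅, by simp, by simp, fun O' _ => h⟩⟩
  | imp b φ ψ _ _ ih1 ih2 =>
    obtain ⟨q, hq⟩ := ih1
    obtain ⟨r, hr⟩ := ih2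
    refine ⟨q + r, fun N O v hv h => ?_⟩
    rw [Polynomial.eval_add]
    simp only [Fm.sat] at h ⊢
    cases b with
    | true =>
      by_cases hφ : φ.sat (nat O) v
      · obtain ⟨Q, h1, h2, h3⟩ := hr N O v hv ⟨fun _ => rfl, fun _ => (h.2 rfl) hφ⟩
        refine ⟨Q, by omega, fun u hu => (h2 u hu).trans (by omega), fun O' hO' => ?_⟩
        exact ⟨fun _ => rfl, fun _ _ => (h3 O' hO').2 rfl⟩
      · obtain ⟨Q, h1, h2, h3⟩ := hq N O v hv ⟨fun h' => absurd h' hφ, fun h' => by simp at h'⟩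
        refine ⟨Q, by omega, fun u hu => (h2 u hu).trans (by omega), fun O' hO' => ?_⟩
        refine ⟨fun _ => rfl, fun _ h' => ?_⟩
        have := (h3 O' hO').1 h'
        simp at this
    | false =>
      have h' : φ.sat (nat O) v ∧ ¬ ψ.sat (nat O) v := by
        by_contra hcon
        have : φ.sat (nat O) v → ψ.sat (nat O) v := by tauto
        have := h.1 this
        simp at this
      obtain ⟨Q, h1, h2, h3⟩ := hq N O v hv ⟨fun _ => rfl, fun _ => h'.1⟩
      obtain ⟨R, h4, h5, h6⟩ := hr N O v hv ⟨fun h'' => absurd h'' h'.2, fun h'' => by simp at h''⟩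
      refine ⟨Q ∪ R, (Finset.card_union_le _ _).trans (by omega), ?_, fun O' hO' => ?_⟩
      · intro u hu
        rcases Finset.mem_union.1 hu with hu | hu
        · exact (h2 u hu).trans (by omega)
        · exact (h5 u hu).trans (by omega)
      · have h7 := (h3 O' fun u hu => hO' u (Finset.mem_union_left _ hu)).2 rfl
        have h8 := h6 O' fun u hu => hO' u (Finset.mem_union_right _ hu)
        exact ⟨fun h'' => h8.1 (h'' h7), fun h'' => by simp at h''⟩
  | sball b t φ _ ih =>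
    obtain ⟨q, hq⟩ := ih
    cases b with
    | true => exact cq_sball hq t
    | false => exact cq_ball hq (.len t)
  | ball t φ _ ih =>
    obtain ⟨q, hq⟩ := ih
    exact cq_ball hq t

theorem CRT_ok : P_CRT := by
  intro F hF _
  obtain ⟨q, hq⟩ := cq_all hF
  refine ⟨q + 1, fun n k hk O hO => ?_⟩
  rw [Polynomial.eval_add, Polynomial.eval_one] at hk
  have key : ∀ O : Oracle, (con F n).sat (nat O) (fun _ => 0) ↔
      ∀ u : ℕ, u.size ≤ n → ¬ F.sat (nat O) (cons u fun _ => 0) := by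
    intro O
    unfold con
    simp only [Fm.sat, val_num, Tm.val]
    exact Iff.rfl
  rw [key] at hO
  push Not at hO
  obtain ⟨u, hu, hs⟩ := hO
  have hv : ∀ i, ((cons u fun _ => 0 : ℕ → ℕ) i).size ≤ n := by
    intro i
    rcases i with _ | i
    · exact hu
    · show Nat.size 0 ≤ n
      rw [Nat.size_zero]
      exact Nat.zero_le _
  obtain ⟨Q, h1, h2, h3⟩ := hq n O (cons u fun _ => 0) hv ⟨fun _ => rfl, fun _ => hs⟩
  refine ⟨Q, by omega, fun w hw => ?_, fun O' hO' => ?_⟩
  · have := h2 w hw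
    omega
  · rw [key]
    push Not
    exact ⟨u, hu, (h3 O' hO').2 rfl⟩

end Pool.Agent.W2helper60.PF
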